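import Pool.Agent.H74.KC.Nest

open Set Metric Filter Topology Bundle Manifold MeasureTheory
open scoped ContDiff

noncomputable section

namespace Pool.Agent.H93.KC

theorem comp : T_COMP := by
  intro t m hm hd
  have hcpt : ∀ j, @IsCompact t.Mfd m.toUniformSpace.toTopologicalSpace
      {x : t.Mfd | ‖t.c j x‖ ≤ t.R j} := by
    intro j
    rw [hm]
    have h1 : IsCompact (t.ci j '' closedBall 0 (t.R j)) :=
      (isCompact_closedBall _ _).image (t.smooth' j).continuous
    have h2 : {x : t.Mfd | ‖t.c j x‖ ≤ t.R j} = t.ci j '' closedBall 0 (t.R j) := by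
      ext x
      constructor
      · intro hx
        exact ⟨t.c j x, mem_closedBall_zero_iff.2 hx, t.left j x⟩
      · rintro ⟨y, hy, rfl⟩
        show ‖t.c j (t.ci j y)‖ ≤ t.R j
        rw [t.right]; exact mem_closedBall_zero_iff.1 hy
    rw [h2]
    exact h1
  refine EMetric.complete_of_cauchySeq_tendsto ?_
  intro s hs
  obtain ⟨N, hN⟩ := EMetric.cauchySeq_iff.1 hs 1 one_pos
  obtain ⟨j, hj⟩ := t.exh (s N)
  have hmem : ∀ n, N ≤ n → s n ∈ {x : t.Mfd | ‖t.c (j + 1) x‖ ≤ t.R (j + 1)} := by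
    intro n hn
    by_contra hcon
    have hcon' : t.R (j + 1) < ‖t.c (j + 1) (s n)‖ := not_le.1 hcon
    have := hd j (s N) (s n) hj.le hcon'.le
    exact absurd (hN N le_rfl n hn) (not_lt.2 this)
  have hs' : CauchySeq (fun n => s (n + N)) := hs.comp_tendsto (tendsto_add_atTop_nat N)
  obtain ⟨x, _, hx⟩ := cauchySeq_tendsto_of_isComplete (hcpt (j + 1)).isComplete
    (fun n => hmem (n + N) (Nat.le_add_left N n)) hs'
  exact ⟨x, (tendsto_add_atTop_iff_nat N).1 hx⟩

end Pool.Agent.H93.KC
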