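import Pool.Agent.H74.KC.Man
import Pool.Agent.H93.KC.Mfd

open Set Metric Filter Topology Bundle Manifold MeasureTheory
open scoped ContDiff ENNReal

noncomputable section

namespace Pool.Agent.H93.KC

lemma interval_cross (b : ℝ → ℝ) (hb : Continuous b) (ρ R : ℝ) (h0 : b 0 ≤ ρ) (h1 : R ≤ b 1)
    (hρR : ρ < R) : ∃ s₁ t₁ : ℝ, 0 ≤ s₁ ∧ s₁ < t₁ ∧ t₁ ≤ 1 ∧ b s₁ ≤ ρ ∧ R ≤ b t₁ ∧
      ∀ s ∈ Ioo s₁ t₁, ρ < b s ∧ b s < R := by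
  have hc : IsCompact (Icc (0:ℝ) 1 ∩ {s | R ≤ b s}) :=
    isCompact_Icc.inter_right (isClosed_le continuous_const hb)
  obtain ⟨t₁, ht₁, hleast⟩ := hc.exists_isLeast ⟨1, ⟨zero_le_one, le_rfl⟩, h1⟩
  have hc2 : IsCompact (Icc (0:ℝ) t₁ ∩ {s | b s ≤ ρ}) :=
    isCompact_Icc.inter_right (isClosed_le hb continuous_const)
  obtain ⟨s₁, hs₁, hgreat⟩ := hc2.exists_isGreatest ⟨0, ⟨le_rfl, ht₁.1.1⟩, h0⟩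
  have e1 : b s₁ ≤ ρ := hs₁.2
  have e2 : R ≤ b t₁ := ht₁.2
  have hne : s₁ ≠ t₁ := by
    rintro rfl
    linarith
  refine ⟨s₁, t₁, hs₁.1.1, lt_of_le_of_ne hs₁.1.2 hne, ht₁.1.2, e1, e2, ?_⟩
  intro s hs
  constructor
  · by_contra hcon
    have : s ≤ s₁ := hgreat ⟨⟨hs₁.1.1.trans hs.1.le, hs.2.le⟩, not_lt.1 hcon⟩
    linarith [hs.1]
  · by_contra hcon
    have : t₁ ≤ s := hleast ⟨⟨hs₁.1.1.trans hs.1.le, hs.2.le.trans ht₁.1.2⟩, not_lt.1 hcon⟩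
    linarith [hs.2]

lemma c_contMDiff (t : Tower) [IsManifold 𝓘(ℝ, ℂ × ℂ) ∞ t.Mfd] (i : ℕ) :
    ContMDiff 𝓘(ℝ, ℂ × ℂ) 𝓘(ℝ, ℂ × ℂ) ∞ (fun x : t.Mfd => (t.c i x : ℂ × ℂ)) := by
  intro x
  rw [contMDiffAt_iff]
  refine ⟨(t.smooth i).continuous.continuousAt, ?_⟩
  have : ContDiff ℝ ∞ (fun y => t.c i (t.ci (t.idx x) y)) := (t.smooth i).comp (t.smooth' _)
  exact this.contDiffAt.contDiffWithinAt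

lemma norm_ge_aux (t : Tower) (j : ℕ) (ρ m : ℝ)
    (hfar : ∀ y, ρ ≤ ‖y‖ → ∀ v : E, m ^ 2 * ‖v‖ ^ 2 ≤ herm (t.u (j + 1)) y v v)
    (x : E) (h1 : ρ ≤ ‖t.c (j + 1) x‖) (h2 : ‖t.c (j + 1) x‖ < t.R (j + 1)) (v : E) :
    m ^ 2 * ‖fderiv ℂ (fun y' => t.c (j + 1) (t.ci (t.idx x) y')) (t.c (t.idx x) x) v‖ ^ 2 ≤
      t.inn x v v := by
  have hT := (trans t (t.idx x) (j + 1) (t.c (t.idx x) x) (t.idx_spec x)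
    (by rw [t.left]; exact h2)).2 v v
  rw [t.left] at hT
  have h3 := hfar (t.c (j + 1) x) h1
    (fderiv ℂ (fun y' => t.c (j + 1) (t.ci (t.idx x) y')) (t.c (t.idx x) x) v)
  rw [hT] at h3
  exact h3

/-- the norm of a tangent vector dominates the norm of its image in chart `j + 1` -/
lemma tangent_norm_ge (t : Tower) [IsManifold 𝓘(ℝ, ℂ × ℂ) ∞ t.Mfd]
    [RiemannianBundle (fun x : t.Mfd => TangentSpace 𝓘(ℝ, ℂ × ℂ) x)]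
    (hin : ∀ (x : t.Mfd) (v w : TangentSpace 𝓘(ℝ, ℂ × ℂ) x), inner ℝ v w = t.inn x v w)
    (j : ℕ) (ρ m : ℝ) (hm : 0 < m)
    (hfar : ∀ y, ρ ≤ ‖y‖ → ∀ v : E, m ^ 2 * ‖v‖ ^ 2 ≤ herm (t.u (j + 1)) y v v)
    (x : t.Mfd) (h1 : ρ ≤ ‖t.c (j + 1) x‖) (h2 : ‖t.c (j + 1) x‖ < t.R (j + 1))
    (v : TangentSpace 𝓘(ℝ, ℂ × ℂ) x) (w : ℂ × ℂ)
    (hw : w = mfderiv 𝓘(ℝ, ℂ × ℂ) 𝓘(ℝ, ℂ × ℂ) (fun x : t.Mfd => (t.c (j + 1) x : ℂ × ℂ)) x v) :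
    m * ‖w‖ ≤ ‖v‖ := by
  have hM := ((mfd trans t (j + 1)).2 x h2).2 v
  have hM' : w
      = fderiv ℂ (fun y' => t.c (j + 1) (t.ci (t.idx x) y')) (t.c (t.idx x) x) (v : ℂ × ℂ) :=
    hw.trans hM
  have h3 := norm_ge_aux t j ρ m hfar x h1 h2 v
  rw [hM']
  have h4 : ‖v‖ ^ 2 = t.inn x v v := by
    rw [← hin x v v, real_inner_self_eq_norm_sq]
  rw [← mul_pow] at h3
  exact le_of_pow_le_pow_left₀ two_ne_zero (norm_nonneg _) (h3.trans_eq h4.symm)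

theorem dist : T_DIST := by
  intro t _ _ hin j x y hx hy
  by_contra hcon
  have hcon' := not_le.1 hcon
  obtain ⟨γ, hγ0, hγ1, hγ, hlen, -, -⟩ :=
    exists_lt_locally_constant_of_riemannianEDist_lt hcon' (zero_lt_one (α := ℝ))
  obtain ⟨ρ, m, hm, hmR, hρ, hfar⟩ := t.far j
  have hf : ContMDiff 𝓘(ℝ, ℂ × ℂ) 𝓘(ℝ, ℂ × ℂ) 1 (fun x : t.Mfd => (t.c (j + 1) x : ℂ × ℂ)) :=
    (c_contMDiff t (j + 1)).of_le (by norm_cast)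
  have hβM : ContMDiff 𝓘(ℝ, ℝ) 𝓘(ℝ, ℂ × ℂ) 1 (fun s => (t.c (j + 1) (γ s) : ℂ × ℂ)) := hf.comp hγ
  have hβ : ContDiff ℝ 1 (fun s => (t.c (j + 1) (γ s) : ℂ × ℂ)) := contMDiff_iff_contDiff.1 hβM
  obtain ⟨s₁, t₁, hs0, hst, ht1, hbs, hbt, hb⟩ := interval_cross
    (fun s => ‖t.c (j + 1) (γ s)‖) hβ.continuous.norm ρ (t.R (j + 1))
    (by simp only [hγ0]; exact hρ x hx) (by simp only [hγ1]; exact hy)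
    (by
      by_contra hc
      have : m * (t.R (j + 1) - ρ) ≤ 0 :=
        mul_nonpos_of_nonneg_of_nonpos hm.le (by linarith [not_lt.1 hc])
      linarith)
  have hE : ‖(t.c (j + 1) (γ t₁) : ℂ × ℂ) - t.c (j + 1) (γ s₁)‖ₑ ≤
      ∫⁻ s in Icc s₁ t₁, ‖derivWithin (fun s => (t.c (j + 1) (γ s) : ℂ × ℂ)) (Icc s₁ t₁) s‖ₑ :=
    enorm_sub_le_lintegral_derivWithin_Icc_of_contDiffOn_Icc hβ.contDiffOn hst.le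
  have hE2 : ENNReal.ofReal m * ∫⁻ s in Icc s₁ t₁,
      ‖derivWithin (fun s => (t.c (j + 1) (γ s) : ℂ × ℂ)) (Icc s₁ t₁) s‖ₑ ≤
      pathELength 𝓘(ℝ, ℂ × ℂ) γ s₁ t₁ := by
    rw [← lintegral_const_mul' _ _ ENNReal.ofReal_ne_top, pathELength_eq_lintegral_mfderiv_Ioo,
      ← restrict_Ioo_eq_restrict_Icc]
    refine setLIntegral_mono' measurableSet_Ioo (fun s hs => ?_)
    have hd : derivWithin (fun s => (t.c (j + 1) (γ s) : ℂ × ℂ)) (Icc s₁ t₁) s =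
        deriv (fun s => (t.c (j + 1) (γ s) : ℂ × ℂ)) s :=
      derivWithin_of_mem_nhds (Icc_mem_nhds hs.1 hs.2)
    rw [hd]
    have hcomp : mfderiv 𝓘(ℝ, ℝ) 𝓘(ℝ, ℂ × ℂ) (fun s => (t.c (j + 1) (γ s) : ℂ × ℂ)) s =
        (mfderiv 𝓘(ℝ, ℂ × ℂ) 𝓘(ℝ, ℂ × ℂ) (fun x : t.Mfd => (t.c (j + 1) x : ℂ × ℂ)) (γ s)).comp
          (mfderiv 𝓘(ℝ, ℝ) 𝓘(ℝ, ℂ × ℂ) γ s) :=
      mfderiv_comp s (hf.mdifferentiable one_ne_zero _) (hγ.mdifferentiable one_ne_zero _)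
    have hderiv : deriv (fun s => (t.c (j + 1) (γ s) : ℂ × ℂ)) s =
        (mfderiv 𝓘(ℝ, ℂ × ℂ) 𝓘(ℝ, ℂ × ℂ) (fun x : t.Mfd => (t.c (j + 1) x : ℂ × ℂ)) (γ s)
          (mfderiv 𝓘(ℝ, ℝ) 𝓘(ℝ, ℂ × ℂ) γ s (1 : ℝ))) := by
      have h6 : deriv (fun s => (t.c (j + 1) (γ s) : ℂ × ℂ)) s =
        fderiv ℝ (fun s => (t.c (j + 1) (γ s) : ℂ × ℂ)) s 1 := by simp
      have := congrArg (fun L => (L (1 : ℝ))) hcomp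
      rw [mfderiv_eq_fderiv] at this
      rw [h6]
      exact this
    have hkey := tangent_norm_ge t hin j ρ m hm hfar (γ s) (hb s hs).1.le (hb s hs).2
      (mfderiv 𝓘(ℝ, ℝ) 𝓘(ℝ, ℂ × ℂ) γ s (1 : ℝ)) _ hderiv
    calc ENNReal.ofReal m * ‖deriv (fun s => (t.c (j + 1) (γ s) : ℂ × ℂ)) s‖ₑ
        = ENNReal.ofReal (m * ‖deriv (fun s => (t.c (j + 1) (γ s) : ℂ × ℂ)) s‖) := by
          rw [ENNReal.ofReal_mul hm.le, ofReal_norm]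
      _ ≤ ENNReal.ofReal ‖mfderiv 𝓘(ℝ, ℝ) 𝓘(ℝ, ℂ × ℂ) γ s (1 : ℝ)‖ := ENNReal.ofReal_le_ofReal hkey
      _ = ‖mfderiv 𝓘(ℝ, ℝ) 𝓘(ℝ, ℂ × ℂ) γ s (1 : ℝ)‖ₑ := ofReal_norm _
  have hE3 : (1 : ℝ≥0∞) ≤ ENNReal.ofReal m * ‖(t.c (j + 1) (γ t₁) : ℂ × ℂ) - t.c (j + 1) (γ s₁)‖ₑ := by
    rw [← ofReal_norm, ← ENNReal.ofReal_mul hm.le, ← ENNReal.ofReal_one]
    refine ENNReal.ofReal_le_ofReal (hmR.trans ?_)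
    refine mul_le_mul_of_nonneg_left ?_ hm.le
    have := norm_sub_norm_le (t.c (j + 1) (γ t₁) : ℂ × ℂ) (t.c (j + 1) (γ s₁))
    linarith
  have hfinal : (1 : ℝ≥0∞) ≤ pathELength 𝓘(ℝ, ℂ × ℂ) γ 0 1 :=
    calc (1 : ℝ≥0∞) ≤ ENNReal.ofReal m * ‖(t.c (j + 1) (γ t₁) : ℂ × ℂ) - t.c (j + 1) (γ s₁)‖ₑ := hE3
      _ ≤ ENNReal.ofReal m * ∫⁻ s in Icc s₁ t₁,
          ‖derivWithin (fun s => (t.c (j + 1) (γ s) : ℂ × ℂ)) (Icc s₁ t₁) s‖ₑ := by gcongr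
      _ ≤ pathELength 𝓘(ℝ, ℂ × ℂ) γ s₁ t₁ := hE2
      _ ≤ pathELength 𝓘(ℝ, ℂ × ℂ) γ 0 1 := pathELength_mono hs0 ht1
  exact absurd hlen (not_lt.2 hfinal)

end Pool.Agent.H93.KC
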