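import Pool.Agent.H74.KC.Man
import Pool.Agent.H93.KC.Mfd

open Set Metric Filter Topology Bundle Manifold MeasureTheory
open scoped ContDiff

noncomputable section

namespace Pool.Agent.H93.KC

lemma two_le_infty : (2 : WithTop ℕ∞) ≤ ∞ := by norm_cast

lemma hess_contDiff {u : E → ℝ} (hu : ContDiff ℝ ∞ u) : ContDiff ℝ ∞ (hess u) := by
  have h1 : ContDiff ℝ ∞ (fderiv ℝ u) := hu.fderiv_right (m := ∞) (by simp)
  exact h1.fderiv_right (m := ∞) (by simp)

lemma hess_symm {u : E → ℝ} (hu : ContDiff ℝ ∞ u) (y p q : E) : hess u y p q = hess u y q p := by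
  have : IsSymmSndFDerivAt ℝ u y := by
    refine (hu.contDiffAt (x := y)).isSymmSndFDerivAt ?_
    simp only [minSmoothness_of_isRCLikeNormedField]
    exact two_le_infty
  exact this p q

/-- third derivative -/
def thd (u : E → ℝ) (y : E) : E →L[ℝ] E →L[ℝ] E →L[ℝ] ℝ := fderiv ℝ (hess u) y

lemma thd_apply {u : E → ℝ} (hu : ContDiff ℝ ∞ u) (y p q : E) :
    HasFDerivAt (fun y' => hess u y' p q)
      ((ContinuousLinearMap.apply ℝ ℝ q).comp ((thd u y).flip p)) y := by
  have h1 : HasFDerivAt (hess u) (thd u y) y :=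
    ((hess_contDiff hu).differentiable (by simp) y).hasFDerivAt
  have h2 := h1.clm_apply (hasFDerivAt_const p y)
  have h3 := h2.clm_apply (hasFDerivAt_const q y)
  refine h3.congr_fderiv ?_
  ext v <;> simp

lemma thd_symm23 {u : E → ℝ} (hu : ContDiff ℝ ∞ u) (y a p q : E) :
    thd u y a p q = thd u y a q p := by
  have h1 := thd_apply hu y p q
  have h2 := thd_apply hu y q p
  have e : (fun y' => hess u y' p q) = fun y' => hess u y' q p := by
    funext y'; exact hess_symm hu y' p q
  rw [e] at h1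
  have := congrArg (fun L => L a) (h1.unique h2)
  simpa using this

lemma thd_symm12 {u : E → ℝ} (hu : ContDiff ℝ ∞ u) (y a p q : E) :
    thd u y a p q = thd u y p a q := by
  have h1 : ContDiff ℝ ∞ (fderiv ℝ u) := hu.fderiv_right (m := ∞) (by simp)
  have : IsSymmSndFDerivAt ℝ (fderiv ℝ u) y := by
    refine (h1.contDiffAt (x := y)).isSymmSndFDerivAt ?_
    simp only [minSmoothness_of_isRCLikeNormedField]
    exact two_le_infty
  have := this a p
  exact congrArg (fun L => L q) this

lemma herm_apply (u : E → ℝ) (y p q : E) :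
    herm u y p q = hess u y p q + hess u y (Complex.I • p) (Complex.I • q) := rfl

lemma fund_hasFDerivAt {u : E → ℝ} (hu : ContDiff ℝ ∞ u) (y a b c : E) :
    fderiv ℝ (fun y' => herm u y' (Complex.I • b) c) y a =
      thd u y a (Complex.I • b) c - thd u y a b (Complex.I • c) := by
  have e : (fun y' => herm u y' (Complex.I • b) c) =
      fun y' => hess u y' (Complex.I • b) c - hess u y' b (Complex.I • c) := by
    funext y'
    rw [herm_apply]
    have : Complex.I • Complex.I • b = -b := by
      rw [smul_smul, Complex.I_mul_I, neg_one_smul]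
    rw [this, map_neg]
    simp [sub_eq_add_neg]
  have h := ((thd_apply hu y (Complex.I • b) c).sub (thd_apply hu y b (Complex.I • c))).fderiv
  rw [e]
  exact congrArg (fun L => L a) h

theorem kah (hL : T_LIN) : T_KAH := by
  intro t _ _ hin
  have hM := mfd trans t
  refine ⟨?_, ?_⟩
  · intro x v w
    rw [hin, hin]
    exact hL.2.2.2.2.1 (t.u (t.idx x)) (t.c (t.idx x) x)
      (((t.spsh (t.idx x)).smooth.contDiffAt).of_le two_le_infty) v w
  · rintro e ⟨i, rfl⟩ y hy a b c
    have hy' : ‖y‖ < t.R i := hy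
    have hu := (t.spsh i).smooth
    have key : ∀ (b c : E), (fun y' => fundForm (t.chart i) y' b c) =ᶠ[𝓝 y]
        fun y' => herm (t.u i) y' (Complex.I • b) c := by
      intro b c
      have hopen : {y' : E | ‖y'‖ < t.R i} ∈ 𝓝 y := (isOpen_lt continuous_norm continuous_const).mem_nhds hy'
      filter_upwards [hopen] with y' h
      have h' : ‖y'‖ < t.R i := h
      have hD := ((hM i).1 y' h').2
      have hk : ‖t.c (t.idx (t.ci i y')) (t.ci i y')‖ < t.R (t.idx (t.ci i y')) := t.idx_spec _
      have hT := (trans t i _ y' h' hk).2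
      unfold fundForm
      rw [hin]
      have h1 : (Jt ((t.chart i).symm y') (mfderiv 𝓘(ℝ, ℂ × ℂ) 𝓘(ℝ, ℂ × ℂ) (t.chart i).symm y' b) : ℂ × ℂ)
          = fderiv ℂ (fun y'' => t.c (t.idx (t.ci i y')) (t.ci i y'')) y' (Complex.I • b) := by
        rw [map_smul, ← hD b]
        rfl
      rw [← hT (Complex.I • b) c, ← h1, ← hD c]
      rfl
    rw [(key b c).fderiv_eq, (key c a).fderiv_eq, (key a b).fderiv_eq,
      fund_hasFDerivAt hu, fund_hasFDerivAt hu, fund_hasFDerivAt hu]
    have e1 : thd (t.u i) y a (Complex.I • b) c = thd (t.u i) y c a (Complex.I • b) := by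
      rw [thd_symm23 hu, thd_symm12 hu]
    have e2 : thd (t.u i) y b (Complex.I • c) a = thd (t.u i) y a b (Complex.I • c) := by
      rw [thd_symm23 hu, thd_symm12 hu]
    have e3 : thd (t.u i) y c (Complex.I • a) b = thd (t.u i) y b c (Complex.I • a) := by
      rw [thd_symm23 hu, thd_symm12 hu]
    rw [e1, e2, e3]
    ring

end Pool.Agent.H93.KC
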