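import Pool.Agent.H74.KC.Trans

open Set Metric Filter Topology Bundle Manifold MeasureTheory
open scoped ContDiff

noncomputable section

namespace Pool.Agent.H93.KC

theorem manr : T_MANR := by
  intro t
  refine isManifold_of_contDiffOn 𝓘(ℝ, ℂ × ℂ) ∞ t.Mfd ?_
  rintro e e' ⟨i, rfl⟩ ⟨j, rfl⟩
  have : ContDiff ℝ ∞ (fun y => t.c j (t.ci i y)) := (t.smooth j).comp (t.smooth' i)
  exact this.contDiffOn

theorem manc : T_MANC := by
  intro t
  refine isManifold_of_contDiffOn 𝓘(ℂ, ℂ × ℂ) ω t.Mfd ?_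
  rintro e e' ⟨i, rfl⟩ ⟨j, rfl⟩
  intro y hy
  have h1 : ‖y‖ < t.R i := hy.1.1
  have h2 : ‖t.c j (t.ci i y)‖ < t.R j := hy.1.2
  have := (trans t i j y h1 h2).1
  exact this.contDiffAt.contDiffWithinAt

theorem diff : T_DIFF := by
  intro t
  have hi : IsManifold 𝓘(ℝ, ℂ × ℂ) ∞ t.Mfd := manr t
  refine ⟨⟨Equiv.refl (ℂ × ℂ), ?_, ?_⟩⟩
  · intro x
    rw [contMDiffAt_iff]
    refine ⟨continuous_id.continuousAt, ?_⟩
    exact (t.smooth' (t.idx x)).contDiffAt.contDiffWithinAt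
  · intro x
    rw [contMDiffAt_iff]
    refine ⟨continuous_id.continuousAt, ?_⟩
    exact (t.smooth (t.idx x)).contDiffAt.contDiffWithinAt

end Pool.Agent.H93.KC
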