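import Pool.Agent.H93.KC.Targets

open Set Metric Filter Topology Bundle Manifold MeasureTheory
open scoped ContDiff

noncomputable section

namespace Pool.Agent.H93.KC

theorem nest : T_NEST := by
  intro t
  have hstep : ∀ j, 0 < t.R j → ∀ x, ‖t.c j x‖ ≤ t.R j → ‖t.c (j + 1) x‖ < t.R (j + 1) := by
    intro j _ x hx
    obtain ⟨ρ, m, hm, h1, h2, _⟩ := t.far j
    have : 0 < t.R (j + 1) - ρ := by
      by_contra hcon
      push Not at hcon
      have : m * (t.R (j + 1) - ρ) ≤ 0 := mul_nonpos_of_nonneg_of_nonpos hm.le hcon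
      linarith
    have := h2 x hx
    linarith
  have hpos : ∀ j, 0 < t.R j := by
    intro j
    induction j with
    | zero => linarith [t.R_zero]
    | succ j ih =>
      have h := hstep j ih (t.ci j 0) (by rw [t.right]; simpa using ih.le)
      exact lt_of_le_of_lt (norm_nonneg _) h
  have hle : ∀ i j, i ≤ j → ∀ x, ‖t.c i x‖ ≤ t.R i → ‖t.c j x‖ ≤ t.R j := by
    intro i j hij
    induction j, hij using Nat.le_induction with
    | base => exact fun x hx => hx
    | succ j _ ih => exact fun x hx => (hstep j (hpos j) x (ih x hx)).le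
  refine ⟨hpos, hle, ?_⟩
  intro i j hij x hx
  obtain ⟨k, rfl⟩ : ∃ k, j = k + 1 := ⟨j - 1, by omega⟩
  exact hstep k (hpos k) x (hle i k (by omega) x hx)

end Pool.Agent.H93.KC
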