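import Pool.Agent.H74.KC.Nest

open Set Metric Filter Topology Bundle Manifold MeasureTheory
open scoped ContDiff

noncomputable section

namespace Pool.Agent.H93.KC

lemma trans_aux (t : Tower) (i j : ℕ) (hij : i ≤ j) : ∀ y : E, ‖y‖ ≤ t.R i →
    AnalyticAt ℂ (fun y' => t.c j (t.ci i y')) y ∧
    AnalyticAt ℂ (fun y' => t.c i (t.ci j y')) (t.c j (t.ci i y)) ∧
    ∀ v w : E, herm (t.u j) (t.c j (t.ci i y)) (fderiv ℂ (fun y' => t.c j (t.ci i y')) y v)
      (fderiv ℂ (fun y' => t.c j (t.ci i y')) y w) = herm (t.u i) y v w := by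
  induction j, hij using Nat.le_induction with
  | base =>
    intro y hy
    have e : (fun y' => t.c i (t.ci i y')) = id := by
      funext y'; exact t.right i y'
    rw [e, t.right]
    refine ⟨analyticAt_id, analyticAt_id, fun v w => ?_⟩
    simp
  | succ j hij ih =>
    intro y hy
    obtain ⟨h1, h2, h3⟩ := ih y hy
    set z : E := t.c j (t.ci i y) with hz
    have hzR : ‖z‖ ≤ t.R j := (nest t).2.1 i j hij (t.ci i y) (by rw [t.right]; exact hy)
    have hg : AnalyticAt ℂ (fun y' => t.c (j + 1) (t.ci j y')) z :=
      t.hol j z (by simpa using hzR)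
    have hg' : AnalyticAt ℂ (fun y' => t.c j (t.ci (j + 1) y')) (t.c (j + 1) (t.ci j z)) :=
      t.hol' j z (by simpa using hzR)
    have hzz : t.c (j + 1) (t.ci j z) = t.c (j + 1) (t.ci i y) := by
      rw [hz, t.left]
    have e1 : (fun y' => t.c (j + 1) (t.ci i y')) =
        (fun y' => t.c (j + 1) (t.ci j y')) ∘ (fun y' => t.c j (t.ci i y')) := by
      funext y'
      simp only [Function.comp]
      rw [t.left]
    have e2 : (fun y' => t.c i (t.ci (j + 1) y')) =
        (fun y' => t.c i (t.ci j y')) ∘ (fun y' => t.c j (t.ci (j + 1) y')) := by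
      funext y'
      simp only [Function.comp]
      rw [t.left]
    refine ⟨?_, ?_, ?_⟩
    · rw [e1]
      exact AnalyticAt.comp (g := fun y' => t.c (j + 1) (t.ci j y')) (f := fun y' => t.c j (t.ci i y')) hg h1
    · rw [e2]
      rw [hzz] at hg'
      have h4 : t.c j (t.ci (j + 1) (t.c (j + 1) (t.ci i y))) = z := by
        rw [t.left]
      refine AnalyticAt.comp (g := fun y' => t.c i (t.ci j y')) (f := fun y' => t.c j (t.ci (j + 1) y')) ?_ hg'
      rw [h4]; exact h2
    · intro v w
      have hd : fderiv ℂ (fun y' => t.c (j + 1) (t.ci i y')) y =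
          (fderiv ℂ (fun y' => t.c (j + 1) (t.ci j y')) z).comp
            (fderiv ℂ (fun y' => t.c j (t.ci i y')) y) := by
        rw [e1]
        exact fderiv_comp y (g := fun y' => t.c (j + 1) (t.ci j y')) (f := fun y' => t.c j (t.ci i y'))
          hg.differentiableAt h1.differentiableAt
      rw [hd, ← hzz]
      simp only [ContinuousLinearMap.comp_apply]
      rw [t.compat j z (by simpa using hzR), ← h3 v w]

theorem trans : T_TRANS := by
  intro t i j y hy hz
  rcases le_total i j with hij | hij
  · obtain ⟨h1, _, h3⟩ := trans_aux t i j hij y hy.le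
    exact ⟨h1, h3⟩
  · set z : E := t.c j (t.ci i y) with hzdef
    obtain ⟨h1, h2, h3⟩ := trans_aux t j i hij z hz.le
    have hy' : t.c i (t.ci j z) = y := by
      rw [hzdef, t.left, t.right]
    rw [hy'] at h2
    refine ⟨h2, ?_⟩
    intro v w
    -- composition is the identity
    have hcomp : (fun y' => t.c i (t.ci j y')) ∘ (fun y' => t.c j (t.ci i y')) = id := by
      funext y'
      simp only [Function.comp, id]
      rw [t.left, t.right]
    have hd : (fderiv ℂ (fun y' => t.c i (t.ci j y')) z).comp
        (fderiv ℂ (fun y' => t.c j (t.ci i y')) y) = ContinuousLinearMap.id ℂ E := by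
      have := fderiv_comp y (g := fun y' => t.c i (t.ci j y')) (f := fun y' => t.c j (t.ci i y'))
          h1.differentiableAt h2.differentiableAt
      rw [hcomp] at this
      rw [← this]
      exact fderiv_id
    have hv : ∀ v : E, fderiv ℂ (fun y' => t.c i (t.ci j y')) z
        (fderiv ℂ (fun y' => t.c j (t.ci i y')) y v) = v := by
      intro v
      have := congrArg (fun L => L v) hd
      simpa using this
    have h4 := h3 (fderiv ℂ (fun y' => t.c j (t.ci i y')) y v)
      (fderiv ℂ (fun y' => t.c j (t.ci i y')) y w)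
    rw [hv, hv, hy'] at h4
    exact h4.symm

end Pool.Agent.H93.KC
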